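import Mathlib

set_option autoImplicit false

namespace Q137.Queens

open Finset

open Classical in
/-- the numbers below `n` with property `P` -/
noncomputable def below (n : ℕ) (P : ℕ → Prop) : Finset ℕ := (range n).filter P

theorem mem_below {n : ℕ} {P : ℕ → Prop} {i : ℕ} : i ∈ below n P ↔ i < n ∧ P i := by
  simp [below]

/-- rows `i < n` at which the pattern `L` has a cell `(i, j)`, `j < n`, on the line `l` -/
noncomputable def rows (n : ℕ) (l L : ℕ → ℕ → Prop) : Finset ℕ :=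
  below n (fun i => ∃ j, j < n ∧ l i j ∧ L i j)

/-- `L` has exactly `r` cells in every row and at most `r` cells on every other line. -/
structure Loc (n r : ℕ) (L : ℕ → ℕ → Prop) : Prop where
  row : ∀ i, i < n → (below n (fun j => L i j)).card = r
  col : ∀ b : ℕ, (rows n (fun _ j => j = b) L).card ≤ r
  anti : ∀ s : ℕ, (rows n (fun i j => i + j = s) L).card ≤ r
  diag : ∀ d : ℤ, (rows n (fun i j => (i : ℤ) - j = d) L).card ≤ r

theorem mem_rows {n : ℕ} {l L : ℕ → ℕ → Prop} {i : ℕ} :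
    i ∈ rows n l L ↔ i < n ∧ ∃ j, j < n ∧ l i j ∧ L i j := by
  simp [rows, mem_below]

theorem rows_or (n : ℕ) (l L M : ℕ → ℕ → Prop) :
    rows n l (fun i j => L i j ∨ M i j) ⊆ rows n l L ∪ rows n l M := by
  intro i hi
  rw [mem_rows] at hi
  obtain ⟨hi, j, hj, hl, h | h⟩ := hi
  · exact mem_union_left _ (mem_rows.2 ⟨hi, j, hj, hl, h⟩)
  · exact mem_union_right _ (mem_rows.2 ⟨hi, j, hj, hl, h⟩)

theorem rows_or_card (n r s : ℕ) (l L M : ℕ → ℕ → Prop) (h1 : (rows n l L).card ≤ r)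
    (h2 : (rows n l M).card ≤ s) :
    (rows n l (fun i j => L i j ∨ M i j)).card ≤ r + s :=
  (card_le_card (rows_or n l L M)).trans ((card_union_le _ _).trans (Nat.add_le_add h1 h2))

theorem Loc.or {n r s : ℕ} {L M : ℕ → ℕ → Prop} (hL : Loc n r L) (hM : Loc n s M)
    (hd : ∀ i j, i < n → j < n → L i j → ¬ M i j) :
    Loc n (r + s) (fun i j => L i j ∨ M i j) := by
  refine ⟨?_, fun b => rows_or_card _ _ _ _ _ _ (hL.col b) (hM.col b),
    fun b => rows_or_card _ _ _ _ _ _ (hL.anti b) (hM.anti b),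
    fun b => rows_or_card _ _ _ _ _ _ (hL.diag b) (hM.diag b)⟩
  intro i hi
  have hun : below n (fun j => L i j ∨ M i j)
      = below n (fun j => L i j) ∪ below n (fun j => M i j) := by
    ext j
    simp only [mem_below, mem_union]
    tauto
  rw [hun, card_union_of_disjoint, hL.row i hi, hM.row i hi]
  rw [Finset.disjoint_left]
  intro j hj hj'
  rw [mem_below] at hj hj'
  exact hd i j hi hj.1 hj.2 hj'.2

theorem rows_mono {n : ℕ} {l L M : ℕ → ℕ → Prop} (h : ∀ i j, i < n → j < n → L i j → M i j) :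
    rows n l L ⊆ rows n l M := by
  intro i hi
  rw [mem_rows] at hi ⊢
  obtain ⟨hi, j, hj, hl, h'⟩ := hi
  exact ⟨hi, j, hj, hl, h i j hi hj h'⟩

theorem Loc.congr {n r : ℕ} {L M : ℕ → ℕ → Prop} (hL : Loc n r L)
    (h : ∀ i j, i < n → j < n → (L i j ↔ M i j)) : Loc n r M := by
  have h2 : ∀ i j, i < n → j < n → M i j → L i j := fun i j hi hj => (h i j hi hj).2
  refine ⟨?_, fun b => (card_le_card (rows_mono h2)).trans (hL.col b),
    fun b => (card_le_card (rows_mono h2)).trans (hL.anti b),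
    fun b => (card_le_card (rows_mono h2)).trans (hL.diag b)⟩
  intro i hi
  rw [← hL.row i hi]
  congr 1
  ext j
  simp only [mem_below]
  constructor
  · rintro ⟨hj, h'⟩; exact ⟨hj, (h i j hi hj).2 h'⟩
  · rintro ⟨hj, h'⟩; exact ⟨hj, (h i j hi hj).1 h'⟩

theorem Loc.empty (n : ℕ) : Loc n 0 (fun _ _ => False) := by
  refine ⟨?_, ?_, ?_, ?_⟩ <;> intros <;> simp [rows, below]

/-! ### Toroidal classes -/

/-- The rows of the toroidal line `value = s - k i` whose value is one of the `w a`, `a < G`. -/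
noncomputable def T (n G : ℕ) (w : ℕ → ℤ) (k : ℕ) (s : ℤ) : Finset ℕ :=
  below n (fun i => ∃ a, a < G ∧ (n : ℤ) ∣ s - k * i - w a)

theorem mem_T {n G : ℕ} {w : ℕ → ℤ} {k : ℕ} {s : ℤ} {i : ℕ} :
    i ∈ T n G w k s ↔ i < n ∧ ∃ a, a < G ∧ (n : ℤ) ∣ s - k * i - w a := by
  simp [T, mem_below]

theorem fibre_card {n k : ℕ} (hn : 0 < n) (A : Finset ℕ) (hA : ∀ i ∈ A, i < n)
    (h : ∀ i ∈ A, ∀ j ∈ A, (n : ℤ) ∣ (k * i : ℤ) - k * j) : A.card ≤ Nat.gcd n k := by
  set g := Nat.gcd n k with hg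
  have hgpos : 0 < g := Nat.gcd_pos_of_pos_left _ hn
  have hgn : g ∣ n := Nat.gcd_dvd_left _ _
  have hm : 0 < n / g := Nat.div_pos (Nat.le_of_dvd hn hgn) hgpos
  have hmg : n / g * g = n := Nat.div_mul_cancel hgn
  have hmap : ∀ i ∈ A, i / (n / g) ∈ range g := by
    intro i hi
    rw [mem_range, Nat.div_lt_iff_lt_mul hm]
    have := hA i hi
    rw [Nat.mul_comm]; omega
  have hinj : Set.InjOn (fun i => i / (n / g)) (A : Set ℕ) := by
    intro i hi j hj hij
    have h1 : k * i ≡ k * j [MOD n] := by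
      rw [← Int.natCast_modEq_iff]
      have := h j hj i hi
      rw [Int.modEq_iff_dvd]
      push_cast
      exact this
    have h2 : i ≡ j [MOD n / g] := Nat.ModEq.cancel_left_div_gcd hn h1
    have h3 : i % (n / g) = j % (n / g) := h2
    simp only at hij
    rw [← Nat.div_add_mod i (n / g), ← Nat.div_add_mod j (n / g), hij, h3]
  have := card_le_card_of_injOn (fun i => i / (n / g)) hmap hinj
  simpa using this

open Classical in
/-- **Toroidal lemma.** -/
theorem T_card {n G k : ℕ} {w : ℕ → ℤ} {c : ℤ} (hn : 0 < n) (hkG : Nat.gcd n k ∣ G)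
    (hw : ∀ a, a < G → (G : ℤ) ∣ w a - a - c) (s : ℤ) : (T n G w k s).card ≤ G := by
  set g := Nat.gcd n k with hg
  have hgpos : 0 < g := Nat.gcd_pos_of_pos_left _ hn
  have hgn : g ∣ n := Nat.gcd_dvd_left _ _
  have hgk : g ∣ k := Nat.gcd_dvd_right _ _
  set e : ℕ := ((s - c) % g).toNat with he
  have hg0 : (g : ℤ) ≠ 0 := by exact_mod_cast hgpos.ne'
  have he' : (e : ℤ) = (s - c) % g := by
    rw [he, Int.toNat_of_nonneg (Int.emod_nonneg _ hg0)]
  set F : ℕ → Finset ℕ := fun b =>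
    (range n).filter (fun i => (n : ℤ) ∣ s - k * i - w (e + g * b)) with hF
  have hsub : T n G w k s ⊆ (range (G / g)).biUnion F := by
    intro i hi
    rw [mem_T] at hi
    obtain ⟨hi, a, ha, hdvd⟩ := hi
    rw [mem_biUnion]
    have h1 : (g : ℤ) ∣ s - k * i - w a := (Int.natCast_dvd_natCast.2 hgn).trans hdvd
    have h2 : (g : ℤ) ∣ w a - a - c := (Int.natCast_dvd_natCast.2 hkG).trans (hw a ha)
    have h3 : (g : ℤ) ∣ k * i := Dvd.dvd.mul_right (Int.natCast_dvd_natCast.2 hgk) _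
    have h4 : (g : ℤ) ∣ (s - c) - a := by
      have := (h1.add h2).add h3
      have h5 : s - k * i - w a + (w a - a - c) + k * i = (s - c) - a := by ring
      rwa [h5] at this
    have h6 : (a : ℤ) % g = (s - c) % g := by
      have : (a : ℤ) ≡ (s - c) [ZMOD g] := (Int.modEq_iff_dvd).2 h4
      exact this
    have h7 : a % g = e := by
      have : ((a % g : ℕ) : ℤ) = e := by rw [he', ← h6]; push_cast; rfl
      exact_mod_cast this
    refine ⟨a / g, ?_, ?_⟩
    · rw [mem_range]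
      exact Nat.div_lt_div_of_lt_of_dvd hkG ha
    · rw [hF]
      simp only [mem_filter, mem_range]
      refine ⟨hi, ?_⟩
      rw [← h7, Nat.mod_add_div]
      exact hdvd
  have hcard : ∀ b ∈ range (G / g), (F b).card ≤ g := by
    intro b _
    apply fibre_card hn
    · intro i hi
      exact mem_range.1 (mem_filter.1 hi).1
    · intro i hi j hj
      have h1 := (mem_filter.1 hi).2
      have h2 := (mem_filter.1 hj).2
      have := h2.sub h1
      have h5 : s - k * (j : ℤ) - w (e + g * b) - (s - k * (i : ℤ) - w (e + g * b))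
        = (k * i : ℤ) - k * j := by ring
      rwa [h5] at this
  calc (T n G w k s).card ≤ ((range (G / g)).biUnion F).card := card_le_card hsub
    _ ≤ (range (G / g)).card * g := card_biUnion_le_card_mul _ _ _ hcard
    _ = G := by rw [card_range, Nat.div_mul_cancel hkG]

/-- The cells with value `j - 2 i` congruent to one of the `w a`, `a < G`. -/
def D (n G : ℕ) (w : ℕ → ℤ) (i j : ℕ) : Prop := ∃ a, a < G ∧ (n : ℤ) ∣ (j : ℤ) - 2 * i - w a

theorem D_row {n G : ℕ} {w : ℕ → ℤ} {c : ℤ} (hn : 0 < n) (hG : G ∣ n)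
    (hw : ∀ a, a < G → (G : ℤ) ∣ w a - a - c) (i : ℕ) :
    (below n (fun j => D n G w i j)).card = G := by
  have hn0 : (n : ℤ) ≠ 0 := by exact_mod_cast hn.ne'
  have himg : below n (fun j => D n G w i j)
      = (range G).image (fun a => ((2 * (i : ℤ) + w a) % n).toNat) := by
    ext j
    simp only [mem_below, mem_range, mem_image, D]
    constructor
    · rintro ⟨hj, a, ha, hd⟩
      refine ⟨a, ha, ?_⟩
      have h1 : (2 * (i : ℤ) + w a) ≡ j [ZMOD n] := by
        rw [Int.modEq_iff_dvd]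
        have h5 : (j : ℤ) - (2 * i + w a) = j - 2 * i - w a := by ring
        rw [h5]; exact hd
      have h2 : (2 * (i : ℤ) + w a) % n = (j : ℤ) % n := h1
      rw [h2, Int.emod_eq_of_lt (by positivity) (by exact_mod_cast hj)]
      simp
    · rintro ⟨a, ha, hj⟩
      have h0 : 0 ≤ (2 * (i : ℤ) + w a) % n := Int.emod_nonneg _ hn0
      have h1 : (2 * (i : ℤ) + w a) % n < n := Int.emod_lt_of_pos _ (by exact_mod_cast hn)
      have h2 : (j : ℤ) = (2 * (i : ℤ) + w a) % n := by
        rw [← hj, Int.toNat_of_nonneg h0]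
      refine ⟨?_, a, ha, ?_⟩
      · have : (j : ℤ) < n := by rw [h2]; exact h1
        exact_mod_cast this
      · rw [h2]
        have h3 : (n : ℤ) ∣ (2 * (i : ℤ) + w a) - (2 * (i : ℤ) + w a) % n :=
          Int.dvd_self_sub_emod
        have h4 := (dvd_neg).2 h3
        have h5 : -((2 * (i : ℤ) + w a) - (2 * (i : ℤ) + w a) % n)
          = (2 * (i : ℤ) + w a) % n - 2 * i - w a := by ring
        rwa [h5] at h4
  rw [himg, card_image_of_injOn, card_range]
  intro a ha b hb hab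
  simp only [coe_range, Set.mem_Iio] at ha hb
  simp only at hab
  have ha0 : 0 ≤ (2 * (i : ℤ) + w a) % n := Int.emod_nonneg _ hn0
  have hb0 : 0 ≤ (2 * (i : ℤ) + w b) % n := Int.emod_nonneg _ hn0
  have h1 : (2 * (i : ℤ) + w a) % n = (2 * (i : ℤ) + w b) % n := by
    rw [← Int.toNat_of_nonneg ha0, ← Int.toNat_of_nonneg hb0, hab]
  have h2 : (n : ℤ) ∣ (2 * (i : ℤ) + w b) - (2 * (i : ℤ) + w a) :=
    (Int.modEq_iff_dvd).1 h1
  have h3 : (G : ℤ) ∣ (2 * (i : ℤ) + w b) - (2 * (i : ℤ) + w a) :=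
    (Int.natCast_dvd_natCast.2 hG).trans h2
  have h4 := hw a ha
  have h5 := hw b hb
  have h6 : (G : ℤ) ∣ (b : ℤ) - a := by
    have := (h3.sub h5).add h4
    have h7 : (2 * (i : ℤ) + w b) - (2 * (i : ℤ) + w a) - (w b - b - c) + (w a - a - c)
      = (b : ℤ) - a := by ring
    rwa [h7] at this
  obtain ⟨t, ht⟩ := h6
  have hGpos : (0 : ℤ) < G := by exact_mod_cast (by omega : 0 < G)
  have hlt : |(b : ℤ) - a| < G := by
    rw [abs_lt]; constructor <;> omega
  have ht0 : t = 0 := by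
    by_contra hne
    have : 1 ≤ |t| := Int.one_le_abs hne
    rw [ht, abs_mul, abs_of_pos hGpos] at hlt
    nlinarith
  rw [ht0] at ht
  omega

/-- The three nontrivial families of lines, in toroidal form. -/
theorem D_col {n G : ℕ} {w : ℕ → ℤ} (b : ℕ) :
    rows n (fun _ j => j = b) (D n G w) ⊆ T n G w 2 b := by
  intro i hi
  rw [mem_rows] at hi
  obtain ⟨hi, j, hj, rfl, a, ha, hd⟩ := hi
  rw [mem_T]
  exact ⟨hi, a, ha, by simpa using hd⟩

theorem D_anti {n G : ℕ} {w : ℕ → ℤ} (s : ℕ) :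
    rows n (fun i j => i + j = s) (D n G w) ⊆ T n G w 3 s := by
  intro i hi
  rw [mem_rows] at hi
  obtain ⟨hi, j, hj, hl, a, ha, hd⟩ := hi
  rw [mem_T]
  refine ⟨hi, a, ha, ?_⟩
  have h5 : (s : ℤ) - (3 : ℕ) * i - w a = j - 2 * i - w a := by
    rw [← hl]; push_cast; ring
  rw [h5]; exact hd

theorem D_diag {n G : ℕ} {w : ℕ → ℤ} (d : ℤ) :
    rows n (fun i j => (i : ℤ) - j = d) (D n G w) ⊆ T n G w 1 (-d) := by
  intro i hi
  rw [mem_rows] at hi
  obtain ⟨hi, j, hj, hl, a, ha, hd⟩ := hi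
  rw [mem_T]
  refine ⟨hi, a, ha, ?_⟩
  have h5 : (-d : ℤ) - (1 : ℕ) * i - w a = j - 2 * i - w a := by
    rw [← hl]; push_cast; ring
  rw [h5]; exact hd

/-- **A full set of classes is a local pattern.** -/
theorem D_loc {n G : ℕ} {w : ℕ → ℤ} {c : ℤ} (hn : 0 < n) (hG : G ∣ n)
    (h2 : Nat.gcd n 2 ∣ G) (h3 : Nat.gcd n 3 ∣ G)
    (hw : ∀ a, a < G → (G : ℤ) ∣ w a - a - c) : Loc n G (D n G w) := by
  refine ⟨fun i _ => D_row hn hG hw i, fun b => ?_, fun b => ?_, fun b => ?_⟩
  · exact (card_le_card (D_col b)).trans (T_card hn h2 hw _)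
  · exact (card_le_card (D_anti b)).trans (T_card hn h3 hw _)
  · exact (card_le_card (D_diag b)).trans (T_card hn (by simp) hw _)

/-- `L` together with the first `q` shifted layers. -/
def layers (n G : ℕ) (w : ℕ → ℤ) (L : ℕ → ℕ → Prop) (q i j : ℕ) : Prop :=
  L i j ∨ ∃ t, 1 ≤ t ∧ t ≤ q ∧ D n G (fun a => w a + G * t) i j

theorem D_disj {n G : ℕ} {w : ℕ → ℤ} {c : ℤ} (hG : G ∣ n)
    (hw : ∀ a, a < G → (G : ℤ) ∣ w a - a - c) {t u i j : ℕ} (htu : t < u) (hu : G * u < n)
    (h1 : D n G (fun a => w a + G * t) i j) (h2 : D n G (fun a => w a + G * u) i j) : False := by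
  obtain ⟨a, ha, h1⟩ := h1
  obtain ⟨b, hb, h2⟩ := h2
  have hGpos : 0 < G := by omega
  have hab : a = b := by
    have h3 : (G : ℤ) ∣ (b : ℤ) - a := by
      have e1 := (Int.natCast_dvd_natCast.2 hG).trans h1
      have e2 := (Int.natCast_dvd_natCast.2 hG).trans h2
      have e3 := hw a ha
      have e4 := hw b hb
      have e5 := ((e1.sub e2).sub e4).add e3
      have e6 : (G : ℤ) ∣ G * u - G * t := by
        rw [← mul_sub]; exact Dvd.intro _ rfl
      have e7 := e5.sub e6
      have h7 : (j : ℤ) - 2 * i - (w a + G * t) - (j - 2 * i - (w b + G * u)) - (w b - b - c)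
        + (w a - a - c) - (G * u - G * t) = (b : ℤ) - a := by ring
      rwa [h7] at e7
    obtain ⟨t', ht⟩ := h3
    have hGp : (0 : ℤ) < G := by exact_mod_cast hGpos
    have hlt : |(b : ℤ) - a| < G := by
      rw [abs_lt]; constructor <;> omega
    have ht0 : t' = 0 := by
      by_contra hne
      have : 1 ≤ |t'| := Int.one_le_abs hne
      rw [ht, abs_mul, abs_of_pos hGp] at hlt
      nlinarith
    rw [ht0] at ht
    omega
  subst hab
  have h3 := h1.sub h2
  have h4 : (j : ℤ) - 2 * i - (w a + G * t) - (j - 2 * i - (w a + G * u)) = G * ((u - t : ℕ) : ℤ) := by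
    rw [Nat.cast_sub htu.le]; ring
  rw [h4] at h3
  have h5 : n ∣ G * (u - t) := by exact_mod_cast h3
  have h6 : 0 < G * (u - t) := Nat.mul_pos hGpos (by omega)
  have h7 := Nat.le_of_dvd h6 h5
  have h8 : G * (u - t) ≤ G * u := Nat.mul_le_mul_left _ (by omega)
  omega

theorem layers_loc {n G r : ℕ} {w : ℕ → ℤ} {c : ℤ} {L : ℕ → ℕ → Prop} (hn : 0 < n) (hG : G ∣ n)
    (h2 : Nat.gcd n 2 ∣ G) (h3 : Nat.gcd n 3 ∣ G)
    (hw : ∀ a, a < G → (G : ℤ) ∣ w a - a - c) (hL : Loc n r L)
    (hsub : ∀ i j, i < n → j < n → L i j → D n G w i j) :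
    ∀ q, G * q + G ≤ n → Loc n (r + G * q) (layers n G w L q) := by
  have hGpos : 0 < G := Nat.pos_of_dvd_of_pos hG hn
  intro q
  induction q with
  | zero =>
    intro _
    rw [Nat.mul_zero, Nat.add_zero]
    refine hL.congr ?_
    intro i j _ _
    unfold layers
    constructor
    · intro h; exact Or.inl h
    · rintro (h | ⟨t, ht1, ht2, _⟩)
      · exact h
      · omega
  | succ q ih =>
    intro hq
    have hq' : G * q + G ≤ n := by rw [Nat.mul_add] at hq; omega
    have hw' : ∀ a, a < G → (G : ℤ) ∣ (fun a => w a + G * (q + 1 : ℕ)) a - a - c := by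
      intro a ha
      have e1 := hw a ha
      have e2 : (G : ℤ) ∣ G * (q + 1 : ℕ) := Dvd.intro _ rfl
      have e3 := e1.add e2
      have e4 : w a - a - c + G * (q + 1 : ℕ) = (w a + G * (q + 1 : ℕ)) - a - c := by ring
      rw [e4] at e3
      exact e3
    have h := (ih hq').or (D_loc hn hG h2 h3 hw') ?_
    · have e : r + G * (q + 1) = r + G * q + G := by ring
      rw [e]
      refine h.congr ?_
      intro i j _ _
      unfold layers
      constructor
      · rintro ((h | ⟨t, ht1, ht2, h⟩) | h)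
        · exact Or.inl h
        · exact Or.inr ⟨t, ht1, by omega, h⟩
        · exact Or.inr ⟨q + 1, by omega, le_refl _, h⟩
      · rintro (h | ⟨t, ht1, ht2, h⟩)
        · exact Or.inl (Or.inl h)
        · rcases Nat.lt_or_ge q t with hlt | hge
          · have : t = q + 1 := by omega
            subst this
            exact Or.inr h
          · exact Or.inl (Or.inr ⟨t, ht1, hge, h⟩)
    · intro i j hi hj hM hD
      have hu : G * (q + 1) < n := by omega
      rcases hM with h | ⟨t, ht1, ht2, h⟩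
      · have h0 : D n G (fun a => w a + G * (0 : ℕ)) i j := by
          have := hsub i j hi hj h
          simpa using this
        exact D_disj hG hw (by omega) hu h0 hD
      · exact D_disj hG hw (by omega) hu h hD

end Q137.Queens
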