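import Pool.Agent.Q137.Queens.Six

set_option autoImplicit false

namespace Q137.Queens

open Finset

theorem PP_sub {n h i j : ℕ} (hn : n = 2 * h) (hi : i < n) (hP : PP h i j) :
    D n 2 (fun a => 3 * (a : ℤ) + (h - 1)) i j := by
  subst hn
  unfold PP at hP
  rcases hP with ⟨h1, h2⟩ | ⟨h1, h2, h3⟩ | ⟨h1, h2, h3⟩ | ⟨h1, h2⟩
  · exact ⟨0, by norm_num, 0, by push_cast; omega⟩
  · exact ⟨0, by norm_num, -1, by push_cast; omega⟩
  · exact ⟨1, by norm_num, -1, by push_cast; omega⟩
  · exact ⟨1, by norm_num, -2, by push_cast; omega⟩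

theorem A1_sub {n m i j : ℕ} (hn : n = 2 * m + 1) (h : A1 m i j) :
    D n 3 (fun a => (a : ℤ) - 4) i j := by
  subst hn
  unfold A1 at h
  rcases h with ⟨h1, h2⟩ | ⟨h1, h2⟩ | ⟨h0, h1, h2⟩ | ⟨h1, h2⟩ | ⟨h1, h2⟩
  · exact ⟨1, by norm_num, 1, by push_cast; omega⟩
  · exact ⟨1, by norm_num, 1, by push_cast; omega⟩
  · exact ⟨0, by norm_num, 0, by push_cast; omega⟩
  · exact ⟨1, by norm_num, 0, by push_cast; omega⟩
  · exact ⟨2, by norm_num, -1, by push_cast; omega⟩

theorem A2_sub {n m i j : ℕ} (hn : n = 2 * m + 1) (h : A2 m i j) :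
    D n 3 (fun a => (a : ℤ) - 3) i j := by
  subst hn
  unfold A2 at h
  rcases h with ⟨h1, h2 | h2⟩ | ⟨h1, h2 | h2⟩ | ⟨h0, h1, h2 | h2⟩ | ⟨h1, h2 | h2⟩ |
    ⟨h1, h2 | h2⟩ | ⟨h1, h2 | h2⟩
  · exact ⟨0, by norm_num, 1, by push_cast; omega⟩
  · exact ⟨2, by norm_num, 1, by push_cast; omega⟩
  · exact ⟨0, by norm_num, 1, by push_cast; omega⟩
  · exact ⟨1, by norm_num, 0, by push_cast; omega⟩
  · exact ⟨0, by norm_num, 0, by push_cast; omega⟩
  · exact ⟨1, by norm_num, 0, by push_cast; omega⟩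
  · exact ⟨0, by norm_num, 0, by push_cast; omega⟩
  · exact ⟨2, by norm_num, 0, by push_cast; omega⟩
  · exact ⟨0, by norm_num, 0, by push_cast; omega⟩
  · exact ⟨2, by norm_num, -1, by push_cast; omega⟩
  · exact ⟨1, by norm_num, -1, by push_cast; omega⟩
  · exact ⟨2, by norm_num, -1, by push_cast; omega⟩

theorem Loc.full (n : ℕ) : Loc n n (fun _ _ => True) := by
  have h : ∀ P : ℕ → Prop, (below n P).card ≤ n := by
    intro P
    calc (below n P).card ≤ (range n).card := by
          apply card_le_card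
          intro i hi
          rw [mem_below] at hi
          exact mem_range.2 hi.1
      _ = n := card_range n
  refine ⟨fun i _ => ?_, fun b => h _, fun b => h _, fun b => h _⟩
  have : below n (fun _ => True) = range n := by
    ext j
    simp [mem_below]
  rw [this, card_range]

/-- from the `G` small patterns to all densities -/
theorem exists_of_small {n G : ℕ} (hn : 0 < n) (hG : G ∣ n)
    (h2 : Nat.gcd n 2 ∣ G) (h3 : Nat.gcd n 3 ∣ G)
    (h : ∀ r, r < G → ∃ (L : ℕ → ℕ → Prop) (w : ℕ → ℤ) (c : ℤ), Loc n r L ∧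
      (∀ i j, i < n → j < n → L i j → D n G w i j) ∧
      ∀ a, a < G → (G : ℤ) ∣ w a - a - c) (c : ℕ) (hc : c ≤ n) :
    ∃ L : ℕ → ℕ → Prop, Loc n c L := by
  rcases Nat.lt_or_ge c n with hlt | hge
  · have hGpos : 0 < G := Nat.pos_of_dvd_of_pos hG hn
    obtain ⟨L, w, c0, hL, hsub, hw⟩ := h (c % G) (Nat.mod_lt _ hGpos)
    obtain ⟨t, ht⟩ := hG
    have hct : c / G < t := by
      rw [Nat.div_lt_iff_lt_mul hGpos, Nat.mul_comm]
      omega
    have hle : G * (c / G) + G ≤ n := by
      rw [ht]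
      calc G * (c / G) + G = G * (c / G + 1) := by ring
        _ ≤ G * t := Nat.mul_le_mul_left _ hct
    have := layers_loc hn ⟨t, ht⟩ h2 h3 hw hL hsub (c / G) hle
    rw [Nat.mod_add_div] at this
    exact ⟨_, this⟩
  · have : c = n := le_antisymm hc hge
    subst this
    exact ⟨_, Loc.full _⟩

theorem exists_loc (n : ℕ) (hn : 4 ≤ n) (c : ℕ) (hc : c ≤ n) :
    ∃ L : ℕ → ℕ → Prop, Loc n c L := by
  have hpos : 0 < n := by omega
  rcases Nat.even_or_odd' n with ⟨h, hh | hh⟩
  · by_cases h3 : n % 3 = 0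
    · -- side `6 k`
      obtain ⟨k, hk⟩ : ∃ k, n = 6 * k := ⟨n / 6, by omega⟩
      have hk1 : 1 ≤ k := by omega
      have hg2 : Nat.gcd n 2 ∣ 6 := by rw [hk]; exact gcd2 k
      have hg3 : Nat.gcd n 3 ∣ 6 := by rw [hk]; exact gcd3 k
      have hw4 : ∀ a : ℕ, a < 6 → ((6 : ℕ) : ℤ) ∣ (fun a : ℕ => (a : ℤ) - 4) a - a - (-4) := by
        intro a _
        refine ⟨0, ?_⟩
        simp only
        ring
      refine exists_of_small hpos ⟨k, hk⟩ hg2 hg3 ?_ c hc
      intro r hr
      have hr' : r = 0 ∨ r = 1 ∨ r = 2 ∨ r = 3 ∨ r = 4 ∨ r = 5 := by omega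
      rcases hr' with rfl | rfl | rfl | rfl | rfl | rfl
      · exact ⟨_, _, _, Loc.empty n, fun _ _ _ _ h => h.elim, hw4⟩
      · exact ⟨_, _, _, B1_loc hk, fun _ _ _ _ h => B1_sub hk h, hw4⟩
      · exact ⟨_, _, _, F2_loc hk hk1, fun _ _ _ _ h => F2_sub hk h, hw4⟩
      · refine ⟨_, _, _, (B1_loc hk).or (F2_loc hk hk1) ?_, ?_, hw4⟩
        · intro i j hi _ h h'
          exact B1_F2 (by omega) h h'
        · intro i j hi _ h
          rcases h with h | h
          · exact B1_sub hk h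
          · exact F2_sub hk h
      · refine ⟨_, _, _, (E2_loc hk).or (F2_loc hk hk1) ?_, ?_, hw4⟩
        · intro i j hi _ h h'
          exact E2_F2 (by omega) h h'
        · intro i j hi _ h
          rcases h with h | h
          · exact E2_sub hk h
          · exact F2_sub hk h
      · exact ⟨_, _, _, L5_loc hk hk1, fun _ _ _ _ h => by rw [hk]; exact h.1, w5⟩
    · -- side `2 h`, `3 ∤ h`
      have hg2 : Nat.gcd n 2 ∣ 2 := Nat.gcd_dvd_right _ _
      have hg3 : Nat.gcd n 3 ∣ 2 := by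
        have : Nat.Coprime n 3 := by
          rw [Nat.coprime_comm, Nat.Prime.coprime_iff_not_dvd Nat.prime_three]
          intro hd
          exact h3 (Nat.mod_eq_zero_of_dvd hd)
        rw [this]
        norm_num
      have hw : ∀ a : ℕ, a < 2 →
          ((2 : ℕ) : ℤ) ∣ (fun a : ℕ => 3 * (a : ℤ) + (h - 1)) a - a - (h - 1) := by
        intro a _
        refine ⟨a, ?_⟩
        simp only
        push_cast
        ring
      refine exists_of_small hpos ⟨h, hh⟩ hg2 hg3 ?_ c hc
      intro r hr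
      have hr' : r = 0 ∨ r = 1 := by omega
      rcases hr' with rfl | rfl
      · exact ⟨_, _, _, Loc.empty n, fun _ _ _ _ h => h.elim, hw⟩
      · exact ⟨_, _, _, PP_loc hh (by omega) (by omega), fun _ _ hi _ h => PP_sub hh hi h, hw⟩
  · by_cases h3 : n % 3 = 0
    · have hg2 : Nat.gcd n 2 ∣ 3 := by
        have : Nat.Coprime n 2 := by
          rw [Nat.coprime_two_right, Nat.odd_iff]
          omega
        rw [this]
        norm_num
      have hg3 : Nat.gcd n 3 ∣ 3 := Nat.gcd_dvd_right _ _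
      have hw4 : ∀ a : ℕ, a < 3 → ((3 : ℕ) : ℤ) ∣ (fun a : ℕ => (a : ℤ) - 4) a - a - (-4) := by
        intro a _
        refine ⟨0, ?_⟩
        simp only
        ring
      have hw3 : ∀ a : ℕ, a < 3 → ((3 : ℕ) : ℤ) ∣ (fun a : ℕ => (a : ℤ) - 3) a - a - (-3) := by
        intro a _
        refine ⟨0, ?_⟩
        simp only
        ring
      refine exists_of_small hpos (Nat.dvd_of_mod_eq_zero h3) hg2 hg3 ?_ c hc
      intro r hr
      have hr' : r = 0 ∨ r = 1 ∨ r = 2 := by omega
      rcases hr' with rfl | rfl | rfl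
      · exact ⟨_, _, _, Loc.empty n, fun _ _ _ _ h => h.elim, hw4⟩
      · exact ⟨_, _, _, A1_loc hh (by omega) (by omega), fun _ _ _ _ h => A1_sub hh h, hw4⟩
      · exact ⟨_, _, _, A2_loc hh (by omega) (by omega), fun _ _ _ _ h => A2_sub hh h, hw3⟩
    · have hg2 : Nat.gcd n 2 ∣ 1 := by
        have : Nat.Coprime n 2 := by
          rw [Nat.coprime_two_right, Nat.odd_iff]
          omega
        rw [this]
      have hg3 : Nat.gcd n 3 ∣ 1 := by
        have : Nat.Coprime n 3 := by
          rw [Nat.coprime_comm, Nat.Prime.coprime_iff_not_dvd Nat.prime_three]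
          intro hd
          exact h3 (Nat.mod_eq_zero_of_dvd hd)
        rw [this]
      refine exists_of_small hpos (one_dvd n) hg2 hg3 ?_ c hc
      intro r hr
      have hr' : r = 0 := by omega
      subst hr'
      exact ⟨_, fun a => (a : ℤ), 0, Loc.empty n, fun _ _ _ _ h => h.elim, fun a _ => by simp⟩

/-- the placement on the board `Fin n × Fin n` given by a pattern -/
theorem exists_finset {n c : ℕ} {L : ℕ → ℕ → Prop} (hL : Loc n c L) :
    ∃ S : Finset (Fin n × Fin n), S.card = n * c ∧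
      (∀ a : Fin n, (S.filter (fun p => p.1 = a)).card ≤ c) ∧
      (∀ b : Fin n, (S.filter (fun p => p.2 = b)).card ≤ c) ∧
      (∀ k : ℕ, (S.filter (fun p => (p.1 : ℕ) + (p.2 : ℕ) = k)).card ≤ c) ∧
      (∀ d : ℤ, (S.filter (fun p => ((p.1 : ℕ) : ℤ) - ((p.2 : ℕ) : ℤ) = d)).card ≤ c) := by
  classical
  set S : Finset (Fin n × Fin n) := univ.filter (fun p => L p.1 p.2) with hS
  have hmem : ∀ p : Fin n × Fin n, p ∈ S ↔ L p.1 p.2 := by
    intro p; rw [hS, mem_filter]; simp
  have hrow : ∀ a : Fin n, (S.filter (fun p => p.1 = a)).card = c := by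
    intro a
    rw [← hL.row a a.2]
    apply card_bij (fun p _ => (p.2 : ℕ))
    · intro p hp
      rw [mem_filter, hmem] at hp
      rw [mem_below]
      refine ⟨p.2.2, ?_⟩
      rw [← hp.2]; exact hp.1
    · intro p hp q hq hpq
      rw [mem_filter] at hp hq
      exact Prod.ext (hp.2.trans hq.2.symm) (Fin.ext hpq)
    · intro j hj
      rw [mem_below] at hj
      refine ⟨(a, ⟨j, hj.1⟩), ?_, rfl⟩
      rw [mem_filter, hmem]
      exact ⟨hj.2, rfl⟩
  have hline : ∀ (P : Fin n × Fin n → Prop) [DecidablePred P] (l : ℕ → ℕ → Prop),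
      (∀ p : Fin n × Fin n, P p → l p.1 p.2) → (∀ i j j', l i j → l i j' → j = j') →
      (S.filter P).card ≤ (rows n l L).card := by
    intro P _ l hP hl
    apply card_le_card_of_injOn (fun p => (p.1 : ℕ))
    · intro p hp
      have hp' : p ∈ S ∧ P p := by
        have := mem_coe.1 hp
        rwa [mem_filter] at this
      refine mem_coe.2 ?_
      rw [mem_rows]
      exact ⟨p.1.2, p.2, p.2.2, hP p hp'.2, (hmem p).1 hp'.1⟩
    · intro p hp q hq hpq
      have hp' : p ∈ S ∧ P p := by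
        have := mem_coe.1 hp
        rwa [mem_filter] at this
      have hq' : q ∈ S ∧ P q := by
        have := mem_coe.1 hq
        rwa [mem_filter] at this
      have e : p.1 = q.1 := Fin.ext hpq
      refine Prod.ext e (Fin.ext ?_)
      have h1 := hP p hp'.2
      have h2 := hP q hq'.2
      rw [← e] at h2
      exact hl _ _ _ h1 h2
  refine ⟨S, ?_, fun a => (hrow a).le, fun b => ?_, fun k => ?_, fun d => ?_⟩
  · have : S.card = ∑ a : Fin n, (S.filter (fun p => p.1 = a)).card :=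
      card_eq_sum_card_fiberwise (fun p _ => mem_univ _)
    rw [this, sum_congr rfl (fun a _ => hrow a)]
    simp
  · refine (hline _ _ ?_ ?_).trans (hL.col b)
    · intro p hp; rw [hp]
    · intro i j j' h h'; exact h.trans h'.symm
  · refine (hline _ _ ?_ ?_).trans (hL.anti k)
    · intro p hp; exact hp
    · intro i j j' h h'; omega
  · refine (hline _ _ ?_ ?_).trans (hL.diag d)
    · intro p hp; exact hp
    · intro i j j' h h'; omega

end Q137.Queens
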