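import Pool.Agent.Q137.Queens.Small

set_option autoImplicit false

namespace Q137.Queens

open Finset

/-! ### Side `6 k` -/

/-- one coin, values `0, 1` -/
def B1 (k i j : ℕ) : Prop := (i < 3 * k ∧ j = 2 * i + 1) ∨ (3 * k ≤ i ∧ j + 6 * k = 2 * i)

theorem B1_loc {n k : ℕ} (hn : n = 6 * k) : Loc n 1 (B1 k) := by
  subst hn
  apply loc_one
  · intro i hi
    by_cases c1 : i < 3 * k
    · exact ⟨2 * i + 1, by omega, Or.inl ⟨c1, rfl⟩⟩
    · exact ⟨2 * i - 6 * k, by omega, Or.inr ⟨by omega, by omega⟩⟩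
  · intro i j j' hi hj hj' h1 h2
    unfold B1 at h1 h2
    omega
  · intro i i' j hi hi' hj h1 h2
    unfold B1 at h1 h2
    omega
  · intro i i' j j' hi hi' hj hj' h1 h2 e
    unfold B1 at h1 h2
    omega
  · intro i i' j j' hi hi' hj hj' h1 h2 e
    unfold B1 at h1 h2
    omega

/-- two coins, values `0, 1` -/
def E2 (k i j : ℕ) : Prop := (i < 3 * k ∧ (j = 2 * i ∨ j = 2 * i + 1)) ∨
  (3 * k ≤ i ∧ (j + 6 * k = 2 * i ∨ j + 6 * k = 2 * i + 1))

theorem E2_loc {n k : ℕ} (hn : n = 6 * k) : Loc n 2 (E2 k) := by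
  subst hn
  apply loc_two
  · intro i hi
    by_cases c1 : i < 3 * k
    · exact ⟨2 * i, 2 * i + 1, by omega, by omega, by omega, by unfold E2; omega,
        by unfold E2; omega⟩
    · exact ⟨2 * i - 6 * k, 2 * i + 1 - 6 * k, by omega, by omega, by omega,
        by unfold E2; omega, by unfold E2; omega⟩
  · intro i j j' j'' hi hj hj' hj'' h1 h2 h3
    unfold E2 at h1 h2 h3
    omega
  · intro i i' i'' j hi hi' hi'' hj h1 h2 h3
    unfold E2 at h1 h2 h3
    omega
  · intro i i' i'' j j' j'' hi hi' hi'' hj hj' hj'' h1 h2 h3 e e'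
    unfold E2 at h1 h2 h3
    omega
  · intro i i' i'' j j' j'' hi hi' hi'' hj hj' hj'' h1 h2 h3 e e'
    unfold E2 at h1 h2 h3
    omega

/-- two coins, values `-4, -3, -2, -1` -/
def F2 (k i j : ℕ) : Prop :=
  (i = 0 ∧ (j + 3 = 6 * k ∨ j + 2 = 6 * k)) ∨ (i = 1 ∧ (j + 1 = 6 * k ∨ j = 0)) ∨
  (2 ≤ i ∧ i ≤ 3 * k ∧ (j + 4 = 2 * i ∨ j + 2 = 2 * i)) ∨
  (i = 3 * k + 1 ∧ (j + 1 = 6 * k ∨ j = 1)) ∨
  (3 * k + 2 ≤ i ∧ (j + 3 + 6 * k = 2 * i ∨ j + 1 + 6 * k = 2 * i))

theorem F2_loc {n k : ℕ} (hn : n = 6 * k) (hk : 1 ≤ k) : Loc n 2 (F2 k) := by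
  subst hn
  apply loc_two
  · intro i hi
    by_cases c1 : i = 0
    · exact ⟨6 * k - 3, 6 * k - 2, by omega, by omega, by omega, by unfold F2; omega,
        by unfold F2; omega⟩
    by_cases c2 : i = 1
    · exact ⟨6 * k - 1, 0, by omega, by omega, by omega, by unfold F2; omega,
        by unfold F2; omega⟩
    by_cases c3 : i ≤ 3 * k
    · exact ⟨2 * i - 4, 2 * i - 2, by omega, by omega, by omega, by unfold F2; omega,
        by unfold F2; omega⟩
    by_cases c4 : i = 3 * k + 1
    · exact ⟨6 * k - 1, 1, by omega, by omega, by omega, by unfold F2; omega,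
        by unfold F2; omega⟩
    · exact ⟨2 * i - 3 - 6 * k, 2 * i - 1 - 6 * k, by omega, by omega, by omega,
        by unfold F2; omega, by unfold F2; omega⟩
  · intro i j j' j'' hi hj hj' hj'' h1 h2 h3
    unfold F2 at h1 h2 h3
    omega
  · intro i i' i'' j hi hi' hi'' hj h1 h2 h3
    unfold F2 at h1 h2 h3
    omega
  · intro i i' i'' j j' j'' hi hi' hi'' hj hj' hj'' h1 h2 h3 e e'
    unfold F2 at h1 h2 h3
    omega
  · intro i i' i'' j j' j'' hi hi' hi'' hj hj' hj'' h1 h2 h3 e e'
    unfold F2 at h1 h2 h3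
    omega

/-- the permutation removed from the six classes `-5, ..., 0` -/
def P5 (k i j : ℕ) : Prop :=
  (i = 0 ∧ j + 1 = 6 * k) ∨ (1 ≤ i ∧ i < 3 * k ∧ j + 1 = 2 * i) ∨
  (i = 3 * k ∧ j + 2 = 6 * k) ∨ (3 * k < i ∧ j + 2 + 6 * k = 2 * i)

/-- five coins, values `-5, ..., 0` -/
def L5 (k i j : ℕ) : Prop := D (6 * k) 6 (fun a => (a : ℤ) - 5) i j ∧ ¬ P5 k i j

theorem w5 (a : ℕ) (_ : a < 6) : ((6 : ℕ) : ℤ) ∣ (fun a : ℕ => (a : ℤ) - 5) a - a - (-5) := by
  refine ⟨0, ?_⟩
  simp only
  ring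

theorem gcd2 (k : ℕ) : Nat.gcd (6 * k) 2 ∣ 6 :=
  (Nat.gcd_dvd_right _ _).trans (by norm_num)

theorem gcd3 (k : ℕ) : Nat.gcd (6 * k) 3 ∣ 6 :=
  (Nat.gcd_dvd_right _ _).trans (by norm_num)

theorem gcd1 (k : ℕ) : Nat.gcd (6 * k) 1 ∣ 6 := by
  rw [Nat.gcd_one_right]; exact one_dvd _

theorem card_le_five {A B : Finset ℕ} (hB : B.card ≤ 6) (hAB : A ⊆ B)
    (h : ∃ i ∈ B, i ∉ A) : A.card ≤ 5 := by
  obtain ⟨i, hi, hiA⟩ := h
  have : A ⊂ B := by
    rw [ssubset_iff_subset_ne]
    refine ⟨hAB, ?_⟩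
    rintro rfl
    exact hiA hi
  have := card_lt_card this
  omega

theorem P5_sub {k i j : ℕ} (h : P5 k i j) : D (6 * k) 6 (fun a => (a : ℤ) - 5) i j := by
  unfold P5 at h
  rcases h with ⟨h1, h2⟩ | ⟨h1, h2, h3⟩ | ⟨h1, h2⟩ | ⟨h1, h2⟩
  · exact ⟨4, by norm_num, 1, by push_cast; omega⟩
  · exact ⟨4, by norm_num, 0, by push_cast; omega⟩
  · exact ⟨3, by norm_num, 0, by push_cast; omega⟩
  · exact ⟨3, by norm_num, -1, by push_cast; omega⟩

theorem L5_loc {n k : ℕ} (hn : n = 6 * k) (hk : 1 ≤ k) : Loc n 5 (L5 k) := by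
  subst hn
  have hn : 0 < 6 * k := by omega
  have hsub : ∀ i j, i < 6 * k → j < 6 * k → L5 k i j →
    D (6 * k) 6 (fun a => (a : ℤ) - 5) i j := fun i j _ _ h => h.1
  refine ⟨?_, ?_, ?_, ?_⟩
  · intro i hi
    obtain ⟨p, hp, hP⟩ : ∃ p, p < 6 * k ∧ P5 k i p := by
      by_cases c1 : i = 0
      · exact ⟨6 * k - 1, by omega, by unfold P5; omega⟩
      by_cases c2 : i < 3 * k
      · exact ⟨2 * i - 1, by omega, by unfold P5; omega⟩
      by_cases c3 : i = 3 * k
      · exact ⟨6 * k - 2, by omega, by unfold P5; omega⟩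
      · exact ⟨2 * i - 2 - 6 * k, by omega, by unfold P5; omega⟩
    have hrow := D_row (w := fun a => (a : ℤ) - 5) hn (Dvd.intro _ rfl) w5 i
    have hmem : p ∈ below (6 * k) (fun j => D (6 * k) 6 (fun a => (a : ℤ) - 5) i j) :=
      mem_below.2 ⟨hp, P5_sub hP⟩
    have heq : below (6 * k) (fun j => L5 k i j)
        = (below (6 * k) (fun j => D (6 * k) 6 (fun a => (a : ℤ) - 5) i j)).erase p := by
      ext j
      rw [mem_erase, mem_below, mem_below]
      constructor
      · rintro ⟨hj, hD, hnP⟩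
        refine ⟨?_, hj, hD⟩
        rintro rfl
        exact hnP hP
      · rintro ⟨hne, hj, hD⟩
        refine ⟨hj, hD, ?_⟩
        intro hP'
        apply hne
        unfold P5 at hP hP'
        omega
    rw [heq, card_erase_of_mem hmem, hrow]
  · intro b
    by_cases hb : b < 6 * k
    · apply card_le_five (T_card (c := -5) hn (gcd2 k) w5 (b : ℤ))
      · exact (rows_mono hsub).trans (D_col b)
      · obtain ⟨i, hi, hP⟩ : ∃ i, i < 6 * k ∧ P5 k i b := by
          rcases Nat.even_or_odd' b with ⟨t, rfl | rfl⟩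
          · by_cases c1 : 2 * t + 2 = 6 * k
            · exact ⟨3 * k, by omega, by unfold P5; omega⟩
            · exact ⟨t + 1 + 3 * k, by omega, by unfold P5; omega⟩
          · by_cases c1 : 2 * t + 2 = 6 * k
            · exact ⟨0, by omega, by unfold P5; omega⟩
            · exact ⟨t + 1, by omega, by unfold P5; omega⟩
        refine ⟨i, ?_, ?_⟩
        · apply D_col b
          rw [mem_rows]
          exact ⟨hi, b, hb, rfl, P5_sub hP⟩
        · rw [mem_rows]
          rintro ⟨_, j, _, rfl, hL⟩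
          exact hL.2 hP
    · have : rows (6 * k) (fun _ j => j = b) (L5 k) = ∅ := by
        ext i
        rw [mem_rows]
        simp only [notMem_empty, iff_false]
        rintro ⟨_, j, hj, rfl, _⟩
        exact hb hj
      rw [this]
      simp
  · intro s
    by_cases hs : s + 2 ≤ 12 * k
    · apply card_le_five (T_card (c := -5) hn (gcd3 k) w5 (s : ℤ))
      · exact (rows_mono hsub).trans (D_anti s)
      · have key : ∀ i a : ℕ, ∀ q : ℤ, i < 6 * k → a < 6 →
            (s : ℤ) - 3 * i - ((a : ℤ) - 5) = (6 * k : ℤ) * q →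
            (∀ j, j < 6 * k → i + j = s → P5 k i j) →
            ∃ i ∈ T (6 * k) 6 (fun a => (a : ℤ) - 5) 3 s,
              i ∉ rows (6 * k) (fun i j => i + j = s) (L5 k) := by
          intro i a q hi ha hq hP
          refine ⟨i, ?_, ?_⟩
          · rw [mem_T]
            refine ⟨hi, a, ha, q, ?_⟩
            push_cast
            exact hq
          · rw [mem_rows]
            rintro ⟨_, j, hj, hl, hL⟩
            exact hL.2 (hP j hj hl)
        rcases Nat.lt_or_ge s (6 * k) with h1 | h1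
        · by_cases h2 : s + 1 = 6 * k
          · exact key 0 4 1 (by omega) (by omega) (by omega)
              (fun j hj hl => by unfold P5; omega)
          by_cases h3 : s + 2 = 6 * k
          · exact key (4 * k) 3 (-1) (by omega) (by omega) (by omega)
              (fun j hj hl => by unfold P5; omega)
          · exact key (6 * k - (6 * k - s) / 3) (5 - (6 * k - s) % 3) (-2) (by omega) (by omega)
              (by omega) (fun j hj hl => by unfold P5; omega)
        · exact key ((s - 6 * k + 2) / 3) (5 + s - 6 * k - 3 * ((s - 6 * k + 2) / 3)) 1 (by omega)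
            (by omega) (by omega) (fun j hj hl => by unfold P5; omega)
    · have : rows (6 * k) (fun i j => i + j = s) (L5 k) = ∅ := by
        ext i
        rw [mem_rows]
        simp only [notMem_empty, iff_false]
        rintro ⟨hi, j, hj, hl, _⟩
        omega
      rw [this]
      simp
  · intro d
    by_cases hs : d < 6 * k ∧ -d < 6 * k
    · obtain ⟨e, rfl⟩ : ∃ e : ℤ, d = -e := ⟨-d, by ring⟩
      apply card_le_five (T_card (k := 1) (c := -5) hn (gcd1 k) w5 (- -e))
      · exact (rows_mono hsub).trans (D_diag (-e))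
      · have key : ∀ i a : ℕ, ∀ q : ℤ, i < 6 * k → a < 6 →
            e - i - ((a : ℤ) - 5) = (6 * k : ℤ) * q →
            (∀ j, j < 6 * k → (i : ℤ) - j = -e → P5 k i j) →
            ∃ i ∈ T (6 * k) 6 (fun a => (a : ℤ) - 5) 1 (- -e),
              i ∉ rows (6 * k) (fun i j => (i : ℤ) - j = -e) (L5 k) := by
          intro i a q hi ha hq hP
          refine ⟨i, ?_, ?_⟩
          · rw [mem_T]
            refine ⟨hi, a, ha, q, ?_⟩
            push_cast
            rw [← hq]
            ring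
          · rw [mem_rows]
            rintro ⟨_, j, hj, hl, hL⟩
            exact hL.2 (hP j hj hl)
        rcases lt_or_ge e (-1) with h1 | h1
        · by_cases h2 : e = -2
          · exact key 0 3 0 (by omega) (by omega) (by omega)
              (fun j hj hl => by unfold P5; omega)
          by_cases h3 : e < -3 * k - 1
          · exact key (e + 1 + 6 * k).toNat 4 (-1) (by omega) (by omega) (by omega)
              (fun j hj hl => by unfold P5; omega)
          · exact key (e + 2 + 6 * k).toNat 3 (-1) (by omega) (by omega) (by omega)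
              (fun j hj hl => by unfold P5; omega)
        · by_cases h2 : e = 6 * k - 1
          · exact key 0 4 1 (by omega) (by omega) (by omega)
              (fun j hj hl => by unfold P5; omega)
          by_cases h3 : e = 3 * k - 1
          · exact key (e + 2).toNat 3 0 (by omega) (by omega) (by omega)
              (fun j hj hl => by unfold P5; omega)
          · exact key (e + 1).toNat 4 0 (by omega) (by omega) (by omega)
              (fun j hj hl => by unfold P5; omega)
    · have : rows (6 * k) (fun i j => (i : ℤ) - j = d) (L5 k) = ∅ := by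
        ext i
        rw [mem_rows]
        simp only [notMem_empty, iff_false]
        rintro ⟨hi, j, hj, hl, _⟩
        omega
      rw [this]
      simp

/-! ### The small patterns lie in a full set of classes -/

theorem B1_sub {n k i j : ℕ} (hn : n = 6 * k) (h : B1 k i j) :
    D n 6 (fun a => (a : ℤ) - 4) i j := by
  subst hn
  unfold B1 at h
  rcases h with ⟨h1, h2⟩ | ⟨h1, h2⟩
  · exact ⟨5, by norm_num, 0, by push_cast; omega⟩
  · exact ⟨4, by norm_num, -1, by push_cast; omega⟩

theorem E2_sub {n k i j : ℕ} (hn : n = 6 * k) (h : E2 k i j) :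
    D n 6 (fun a => (a : ℤ) - 4) i j := by
  subst hn
  unfold E2 at h
  rcases h with ⟨h1, h2 | h2⟩ | ⟨h1, h2 | h2⟩
  · exact ⟨4, by norm_num, 0, by push_cast; omega⟩
  · exact ⟨5, by norm_num, 0, by push_cast; omega⟩
  · exact ⟨4, by norm_num, -1, by push_cast; omega⟩
  · exact ⟨5, by norm_num, -1, by push_cast; omega⟩

theorem F2_sub {n k i j : ℕ} (hn : n = 6 * k) (h : F2 k i j) :
    D n 6 (fun a => (a : ℤ) - 4) i j := by
  subst hn
  unfold F2 at h
  rcases h with ⟨h1, h2 | h2⟩ | ⟨h1, h2 | h2⟩ | ⟨h0, h1, h2 | h2⟩ | ⟨h1, h2 | h2⟩ | ⟨h1, h2 | h2⟩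
  · exact ⟨1, by norm_num, 1, by push_cast; omega⟩
  · exact ⟨2, by norm_num, 1, by push_cast; omega⟩
  · exact ⟨1, by norm_num, 1, by push_cast; omega⟩
  · exact ⟨2, by norm_num, 0, by push_cast; omega⟩
  · exact ⟨0, by norm_num, 0, by push_cast; omega⟩
  · exact ⟨2, by norm_num, 0, by push_cast; omega⟩
  · exact ⟨1, by norm_num, 0, by push_cast; omega⟩
  · exact ⟨3, by norm_num, -1, by push_cast; omega⟩
  · exact ⟨1, by norm_num, -1, by push_cast; omega⟩
  · exact ⟨3, by norm_num, -1, by push_cast; omega⟩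

theorem B1_F2 {k i j : ℕ} (hi : i < 6 * k) (h : B1 k i j) (h' : F2 k i j) :
    False := by
  unfold B1 at h
  unfold F2 at h'
  omega

theorem E2_F2 {k i j : ℕ} (hi : i < 6 * k) (h : E2 k i j) (h' : F2 k i j) :
    False := by
  unfold E2 at h
  unfold F2 at h'
  omega

end Q137.Queens
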