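import Pool.Agent.Q137.Queens.Basic

set_option autoImplicit false

namespace Q137.Queens

open Finset

theorem loc_one {n : ℕ} {L : ℕ → ℕ → Prop}
    (hrow : ∀ i, i < n → ∃ j, j < n ∧ L i j)
    (huniq : ∀ i j j', i < n → j < n → j' < n → L i j → L i j' → j = j')
    (hcol : ∀ i i' j, i < n → i' < n → j < n → L i j → L i' j → i = i')
    (hanti : ∀ i i' j j', i < n → i' < n → j < n → j' < n → L i j → L i' j' →
      i + j = i' + j' → i = i')
    (hdiag : ∀ i i' j j', i < n → i' < n → j < n → j' < n → L i j → L i' j' →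
      i + j' = i' + j → i = i') : Loc n 1 L := by
  refine ⟨?_, ?_, ?_, ?_⟩
  · intro i hi
    obtain ⟨j, hj, hL⟩ := hrow i hi
    rw [card_eq_one]
    refine ⟨j, ?_⟩
    ext k
    rw [mem_below, mem_singleton]
    constructor
    · rintro ⟨hk, hk'⟩; exact huniq i k j hi hk hj hk' hL
    · rintro rfl; exact ⟨hj, hL⟩
  · intro b
    rw [card_le_one]
    intro i hi i' hi'
    rw [mem_rows] at hi hi'
    obtain ⟨h1, j, hj, rfl, hL⟩ := hi
    obtain ⟨h1', j', hj', e, hL'⟩ := hi'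
    subst e
    exact hcol i i' _ h1 h1' hj hL hL'
  · intro b
    rw [card_le_one]
    intro i hi i' hi'
    rw [mem_rows] at hi hi'
    obtain ⟨h1, j, hj, e, hL⟩ := hi
    obtain ⟨h1', j', hj', e', hL'⟩ := hi'
    exact hanti i i' j j' h1 h1' hj hj' hL hL' (e.trans e'.symm)
  · intro b
    rw [card_le_one]
    intro i hi i' hi'
    rw [mem_rows] at hi hi'
    obtain ⟨h1, j, hj, e, hL⟩ := hi
    obtain ⟨h1', j', hj', e', hL'⟩ := hi'
    exact hdiag i i' j j' h1 h1' hj hj' hL hL' (by omega)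

theorem card_le_two_of {s : Finset ℕ}
    (h : ∀ a ∈ s, ∀ b ∈ s, ∀ c ∈ s, a < b → b < c → False) : s.card ≤ 2 := by
  by_contra hc
  push Not at hc
  rw [two_lt_card] at hc
  obtain ⟨a, ha, b, hb, c, hc, hab, hac, hbc⟩ := hc
  rcases Nat.lt_or_gt_of_ne hab with h1 | h1 <;> rcases Nat.lt_or_gt_of_ne hac with h2 | h2 <;>
    rcases Nat.lt_or_gt_of_ne hbc with h3 | h3
  · exact h a ha b hb c hc h1 h3
  · exact h a ha c hc b hb h2 h3
  · omega
  · exact h c hc a ha b hb h2 h1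
  · exact h b hb a ha c hc h1 h2
  · omega
  · exact h b hb c hc a ha h3 h2
  · exact h c hc b hb a ha h3 h1

theorem loc_two {n : ℕ} {L : ℕ → ℕ → Prop}
    (hrow : ∀ i, i < n → ∃ j j', j < n ∧ j' < n ∧ j ≠ j' ∧ L i j ∧ L i j')
    (huniq : ∀ i j j' j'', i < n → j < j' → j' < j'' → j'' < n → L i j → L i j' → L i j'' → False)
    (hcol : ∀ i i' i'' j, i < i' → i' < i'' → i'' < n → j < n → L i j → L i' j → L i'' j → False)
    (hanti : ∀ i i' i'' j j' j'', i < i' → i' < i'' → i'' < n → j < n → j' < n → j'' < n →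
      L i j → L i' j' → L i'' j'' → i + j = i' + j' → i + j = i'' + j'' → False)
    (hdiag : ∀ i i' i'' j j' j'', i < i' → i' < i'' → i'' < n → j < n → j' < n → j'' < n →
      L i j → L i' j' → L i'' j'' → i + j' = i' + j → i + j'' = i'' + j → False) :
    Loc n 2 L := by
  refine ⟨?_, ?_, ?_, ?_⟩
  · intro i hi
    apply le_antisymm
    · apply card_le_two_of
      intro a ha b hb c hc hab hbc
      rw [mem_below] at ha hb hc
      exact huniq i a b c hi hab hbc hc.1 ha.2 hb.2 hc.2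
    · obtain ⟨j, j', hj, hj', hne, hL, hL'⟩ := hrow i hi
      have hsub : ({j, j'} : Finset ℕ) ⊆ below n (fun j => L i j) := by
        intro x hx
        rw [mem_insert, mem_singleton] at hx
        rw [mem_below]
        rcases hx with rfl | rfl
        · exact ⟨hj, hL⟩
        · exact ⟨hj', hL'⟩
      have := card_le_card hsub
      rwa [card_pair hne] at this
  · intro b
    apply card_le_two_of
    intro i hi i' hi' i'' hi'' h12 h23
    rw [mem_rows] at hi hi' hi''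
    obtain ⟨h1, j, hj, rfl, hL⟩ := hi
    obtain ⟨h1', j', hj', e, hL'⟩ := hi'
    obtain ⟨h1'', j'', hj'', e', hL''⟩ := hi''
    subst e
    subst e'
    exact hcol i i' i'' _ h12 h23 h1'' hj hL hL' hL''
  · intro b
    apply card_le_two_of
    intro i hi i' hi' i'' hi'' h12 h23
    rw [mem_rows] at hi hi' hi''
    obtain ⟨h1, j, hj, e, hL⟩ := hi
    obtain ⟨h1', j', hj', e', hL'⟩ := hi'
    obtain ⟨h1'', j'', hj'', e'', hL''⟩ := hi''
    exact hanti i i' i'' j j' j'' h12 h23 h1'' hj hj' hj'' hL hL' hL'' (e.trans e'.symm)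
      (e.trans e''.symm)
  · intro b
    apply card_le_two_of
    intro i hi i' hi' i'' hi'' h12 h23
    rw [mem_rows] at hi hi' hi''
    obtain ⟨h1, j, hj, e, hL⟩ := hi
    obtain ⟨h1', j', hj', e', hL'⟩ := hi'
    obtain ⟨h1'', j'', hj'', e'', hL''⟩ := hi''
    exact hdiag i i' i'' j j' j'' h12 h23 h1'' hj hj' hj'' hL hL' hL'' (by omega) (by omega)

/-! ### `n` even, not divisible by three -/

/-- Pauls' placement on the board of side `2 h`, `3 ∤ h` -/
def PP (h i j : ℕ) : Prop :=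
  (2 * i ≤ h ∧ j + 1 = 2 * i + h) ∨ (i < h ∧ h < 2 * i ∧ j + h + 1 = 2 * i) ∨
  (h ≤ i ∧ 2 * i + 2 < 3 * h ∧ j + h = 2 * i + 2) ∨ (3 * h ≤ 2 * i + 2 ∧ j + 3 * h = 2 * i + 2)

theorem PP_loc {n h : ℕ} (hn : n = 2 * h) (h2 : 2 ≤ h) (h3 : h % 3 ≠ 0) : Loc n 1 (PP h) := by
  subst hn
  apply loc_one
  · intro i hi
    by_cases c1 : 2 * i ≤ h
    · exact ⟨2 * i + h - 1, by omega, Or.inl ⟨c1, by omega⟩⟩
    by_cases c2 : i < h
    · exact ⟨2 * i - h - 1, by omega, Or.inr (Or.inl ⟨c2, by omega, by omega⟩)⟩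
    by_cases c3 : 2 * i + 2 < 3 * h
    · exact ⟨2 * i + 2 - h, by omega, Or.inr (Or.inr (Or.inl ⟨by omega, c3, by omega⟩))⟩
    · exact ⟨2 * i + 2 - 3 * h, by omega, Or.inr (Or.inr (Or.inr ⟨by omega, by omega⟩))⟩
  · intro i j j' hi hj hj' h1 h2
    unfold PP at h1 h2
    omega
  · intro i i' j hi hi' hj h1 h2
    unfold PP at h1 h2
    omega
  · intro i i' j j' hi hi' hj hj' h1 h2 e
    unfold PP at h1 h2
    obtain ⟨c, hc⟩ : ∃ c, h = 3 * c + 1 ∨ h = 3 * c + 2 := ⟨h / 3, by omega⟩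
    rcases hc with rfl | rfl <;> omega
  · intro i i' j j' hi hi' hj hj' h1 h2 e
    unfold PP at h1 h2
    rcases Nat.lt_or_ge h 4 with h5 | h5
    · interval_cases h <;> omega
    · clear h3
      omega

/-! ### `n` an odd multiple of three -/

/-- one coin, values `-4, -3, -2`, on the board of side `2 m + 1` -/
def A1 (m i j : ℕ) : Prop :=
  (i = 0 ∧ j + 2 = 2 * m) ∨ (i = 1 ∧ j = 2 * m) ∨ (2 ≤ i ∧ i ≤ m ∧ j + 4 = 2 * i) ∨
  (i = m + 1 ∧ j + 1 = 2 * m) ∨ (m + 2 ≤ i ∧ j + 2 * m + 3 = 2 * i)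

theorem A1_loc {n m : ℕ} (hn : n = 2 * m + 1) (h4 : 4 ≤ m) (h3 : m % 3 = 1) :
    Loc n 1 (A1 m) := by
  subst hn
  apply loc_one
  · intro i hi
    by_cases c1 : i = 0
    · exact ⟨2 * m - 2, by omega, Or.inl ⟨c1, by omega⟩⟩
    by_cases c2 : i = 1
    · exact ⟨2 * m, by omega, Or.inr (Or.inl ⟨c2, by omega⟩)⟩
    by_cases c3 : i ≤ m
    · exact ⟨2 * i - 4, by omega, Or.inr (Or.inr (Or.inl ⟨by omega, c3, by omega⟩))⟩
    by_cases c4 : i = m + 1
    · exact ⟨2 * m - 1, by omega, Or.inr (Or.inr (Or.inr (Or.inl ⟨by omega, by omega⟩)))⟩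
    · exact ⟨2 * i - 2 * m - 3, by omega, Or.inr (Or.inr (Or.inr (Or.inr ⟨by omega, by omega⟩)))⟩
  · intro i j j' hi hj hj' h1 h2
    unfold A1 at h1 h2
    omega
  · intro i i' j hi hi' hj h1 h2
    unfold A1 at h1 h2
    omega
  · intro i i' j j' hi hi' hj hj' h1 h2 e
    unfold A1 at h1 h2
    omega
  · intro i i' j j' hi hi' hj hj' h1 h2 e
    unfold A1 at h1 h2
    omega

/-- two coins, values `-3, -2, -1`, on the board of side `2 m + 1` -/
def A2 (m i j : ℕ) : Prop :=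
  (i = 0 ∧ (j + 2 = 2 * m ∨ j = 2 * m)) ∨ (i = 1 ∧ (j = 2 * m ∨ j = 0)) ∨
  (2 ≤ i ∧ i < m ∧ (j + 3 = 2 * i ∨ j + 2 = 2 * i)) ∨
  (i = m ∧ (j + 3 = 2 * i ∨ j + 1 = 2 * i)) ∨ (i = m + 1 ∧ (j + 1 = 2 * m ∨ j = 0)) ∨
  (m + 2 ≤ i ∧ (j + 2 * m + 3 = 2 * i ∨ j + 2 * m + 2 = 2 * i))

theorem A2_loc {n m : ℕ} (hn : n = 2 * m + 1) (h4 : 4 ≤ m) (h3 : m % 3 = 1) :
    Loc n 2 (A2 m) := by
  subst hn
  apply loc_two
  · intro i hi
    by_cases c1 : i = 0
    · exact ⟨2 * m - 2, 2 * m, by omega, by omega, by omega, by unfold A2; omega,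
        by unfold A2; omega⟩
    by_cases c2 : i = 1
    · exact ⟨2 * m, 0, by omega, by omega, by omega, by unfold A2; omega, by unfold A2; omega⟩
    by_cases c3 : i < m
    · exact ⟨2 * i - 3, 2 * i - 2, by omega, by omega, by omega, by unfold A2; omega,
        by unfold A2; omega⟩
    by_cases c4 : i = m
    · exact ⟨2 * i - 3, 2 * i - 1, by omega, by omega, by omega, by unfold A2; omega,
        by unfold A2; omega⟩
    by_cases c5 : i = m + 1
    · exact ⟨2 * m - 1, 0, by omega, by omega, by omega, by unfold A2; omega,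
        by unfold A2; omega⟩
    · exact ⟨2 * i - 2 * m - 3, 2 * i - 2 * m - 2, by omega, by omega, by omega,
        by unfold A2; omega, by unfold A2; omega⟩
  · intro i j j' j'' hi hj hj' hj'' h1 h2 h3
    unfold A2 at h1 h2 h3
    omega
  · intro i i' i'' j hi hi' hi'' hj h1 h2 h3
    unfold A2 at h1 h2 h3
    omega
  · intro i i' i'' j j' j'' hi hi' hi'' hj hj' hj'' h1 h2 h3 e e'
    unfold A2 at h1 h2 h3
    omega
  · intro i i' i'' j j' j'' hi hi' hi'' hj hj' hj'' h1 h2 h3 e e'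
    unfold A2 at h1 h2 h3
    omega

end Q137.Queens
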